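import Pool.Agent.helper1.UN.SpecU
import Pool.Agent.helper1.UN.Spec3

/-!
# Project UN, row VCT: the constant terms cancel
-/

set_option autoImplicit false

open NumberField Complex MeasureTheory NumberField.Units NumberField.Units.dirichletUnitTheorem

open scoped Classical

namespace Pool.Agent.UN

section VCTsec

variable {K : Type} [Field K] [NumberField K]

/-- the archimedean character as one exponential (`m = 0`) -/
theorem VCT_Ar (τ : InfinitePlace K → ℝ) (m : InfinitePlace K → ℤ) (hm : ∀ w, m w = 0) (x : 𝓞 K) :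
    Ar τ m x = cexp (-(((∑ w : InfinitePlace K, (w.mult : ℝ) * τ w * Real.log (w (x : K)) : ℝ) : ℂ)) * I) := by
  unfold Ar ph
  have h1 : ∀ w : InfinitePlace K, cexp (-(((w.mult : ℝ) * τ w * Real.log (w (x : K)) : ℝ) : ℂ) * I) *
      (w.embedding (x : K) / (‖w.embedding (x : K)‖ : ℂ)) ^ (m w) =
        cexp (-(((w.mult : ℝ) * τ w * Real.log (w (x : K)) : ℝ) : ℂ) * I) := by
    intro w
    rw [hm w, zpow_zero, mul_one]
  rw [Finset.prod_congr rfl fun w _ => h1 w, ← Complex.exp_sum]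
  congr 1
  push_cast
  rw [← Finset.sum_mul, Finset.sum_neg_distrib]

/-- the product of the powers as one exponential -/
theorem VCT_prod (τ : InfinitePlace K → ℝ) (a : InfinitePlace K → ℕ) (ha : ∀ w, a w = 0) (ρ : ℝ) (hρ : 0 < ρ)
    (l : logSpace K) :
    ∏ w : InfinitePlace K, ((Yl ρ l w : ℝ) : ℂ) ^ (ex τ a w) =
      cexp ((((∑ w : InfinitePlace K, (w.mult : ℝ) * τ w) * (Real.log ρ / 2) : ℝ) : ℂ) * I) *
        cexp (((∑ w : InfinitePlace K, (w.mult : ℝ) * τ w * lv l w : ℝ) : ℂ) * I) := by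
  have h1 : ∀ w : InfinitePlace K, ((Yl ρ l w : ℝ) : ℂ) ^ (ex τ a w) =
      cexp ((((w.mult : ℝ) * τ w * (Real.log ρ / 2) + (w.mult : ℝ) * τ w * lv l w : ℝ) : ℂ) * I) := by
    intro w
    have hy : 0 < Yl ρ l w := by
      unfold Yl
      positivity
    have hlog : Real.log (Yl ρ l w) = Real.log ρ + 2 * lv l w := by
      unfold Yl
      rw [Real.log_mul hρ.ne' (Real.exp_pos _).ne', Real.log_exp]
    rw [Complex.cpow_def_of_ne_zero (by exact_mod_cast hy.ne'), ← Complex.ofReal_log hy.le, hlog]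
    congr 1
    unfold ex
    rw [ha w]
    push_cast
    ring
  rw [Finset.prod_congr rfl fun w _ => h1 w, ← Complex.exp_sum, ← Complex.exp_add]
  congr 1
  rw [← Finset.sum_mul, ← add_mul]
  congr 1
  rw [← Complex.ofReal_sum, ← Complex.ofReal_add]
  congr 1
  rw [Finset.sum_add_distrib, Finset.sum_mul]

end VCTsec

theorem VCT (hVCA : VCA_stmt) (hVCB : VCB_stmt) (hVLV : VLV_stmt) (hHGC : HGC_stmt) (hPRO : PRO_stmt) : VCT_stmt := by
  intro K _ _ f χ τ m e δ ε b σ β F hχ hNT hTF hF ρ hρ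
  rcases hTF.del with hδ | ⟨hδ, hf, hem, hAr⟩
  · subst hδ
    simp
  subst hδ
  subst hf
  obtain ⟨hn, hmult, -, hpx, -, hNb, -⟩ := hPRO K
  have hm : ∀ w, m w = 0 := fun w => (hem w).2
  have haa : ∀ w, aa m e w = 0 := by
    intro w
    unfold aa
    rw [(hem w).1, (hem w).2]
    rfl
  have hHM : HM ⊤ χ := (hHGC K ⊤ χ τ m hχ).1
  have hunit : ∀ u : (𝓞 K)ˣ, cexp (((∑ w : InfinitePlace K, (w.mult : ℝ) * τ w *
      Real.log (w ((u : 𝓞 K) : K)) : ℝ) : ℂ) * I) = 1 := by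
    intro u
    have h1 : χ (Ideal.span {(u : 𝓞 K)}) = 1 := by
      rw [Ideal.span_singleton_eq_top.mpr u.isUnit]
      exact hχ.one
    rw [hAr (u : 𝓞 K) u.ne_zero, VCT_Ar τ m hm] at h1
    rw [neg_mul, Complex.exp_neg, inv_eq_one] at h1
    exact h1
  obtain ⟨E, hE⟩ : ∃ E : ℂ, E = ∫ l in F, cexp (((∑ w : InfinitePlace K, (w.mult : ℝ) * τ w * lv l w : ℝ) : ℂ) * I) :=
    ⟨_, rfl⟩
  have hbpos : ∀ c, 0 < Nm (b c) := by
    intro c
    obtain ⟨h, -⟩ := hTF.rep c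
    exact lt_of_lt_of_le one_pos (hNb (b c) h)
  have hρ' : ∀ c, 0 < ρ * Nm (b c) ^ (-(2 / (Module.finrank ℚ K : ℝ))) := fun c =>
    mul_pos hρ (Real.rpow_pos_of_pos (hbpos c) _)
  have hterm : ∀ c, ∫ l in F, (starRingEnd ℂ) (χ (b c)) * (1 * ∏ w : InfinitePlace K,
      ((Yl (ρ * Nm (b c) ^ (-(2 / (Module.finrank ℚ K : ℝ)))) l w : ℝ) : ℂ) ^ (ex τ (aa m e) w)) =
      (starRingEnd ℂ) (χ (b c)) * cexp ((((∑ w : InfinitePlace K, (w.mult : ℝ) * τ w) *
        (Real.log (ρ * Nm (b c) ^ (-(2 / (Module.finrank ℚ K : ℝ)))) / 2) : ℝ) : ℂ) * I) * E := by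
    intro c
    rw [hE, ← integral_const_mul]
    congr 1
    funext l
    rw [VCT_prod τ (aa m e) haa _ (hρ' c) l, one_mul, mul_assoc]
  rw [Finset.sum_congr rfl fun c _ => hterm c]
  rcases hVCA K τ F hF hunit with hτ | h0
  · obtain ⟨t₀, ht₀⟩ : ∃ t₀ : ℝ, ∀ w, τ w = t₀ := ⟨τ w₀, fun w => hτ w w₀⟩
    have hn0 : (0 : ℝ) < Module.finrank ℚ K := by exact_mod_cast hn
    have hT : ∑ w : InfinitePlace K, (w.mult : ℝ) * τ w = Module.finrank ℚ K * t₀ := by
      have h1 : ∀ w : InfinitePlace K, (w.mult : ℝ) * τ w = (w.mult : ℝ) * t₀ := fun w => by rw [ht₀ w]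
      rw [Finset.sum_congr rfl fun w _ => h1 w, ← Finset.sum_mul, ← hmult]
      push_cast
      rfl
    have hx : ∀ x : 𝓞 K, x ≠ 0 → χ (Ideal.span {x}) = ph t₀ (Real.log (Nm (Ideal.span {x}))) := by
      intro x hx0
      rw [hAr x hx0, VCT_Ar τ m hm, ← (hpx x hx0).2.2]
      unfold ph
      congr 3
      have h1 : ∀ w : InfinitePlace K, (w.mult : ℝ) * τ w * Real.log (w (x : K)) =
          t₀ * ((w.mult : ℝ) * Real.log (w (x : K))) := fun w => by rw [ht₀ w]; ring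
      rw [Finset.sum_congr rfl fun w _ => h1 w, Finset.mul_sum]
    have hB := hVCB K χ b t₀ hHM hTF.rep hx hNT
    have hfac : ∀ c, (starRingEnd ℂ) (χ (b c)) * cexp ((((∑ w : InfinitePlace K, (w.mult : ℝ) * τ w) *
        (Real.log (ρ * Nm (b c) ^ (-(2 / (Module.finrank ℚ K : ℝ)))) / 2) : ℝ) : ℂ) * I) * E =
        ((starRingEnd ℂ) (χ (b c)) * ph t₀ (Real.log (Nm (b c)))) *
          (cexp (((Module.finrank ℚ K * t₀ * (Real.log ρ / 2) : ℝ) : ℂ) * I) * E) := by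
      intro c
      have h2 : cexp ((((∑ w : InfinitePlace K, (w.mult : ℝ) * τ w) *
          (Real.log (ρ * Nm (b c) ^ (-(2 / (Module.finrank ℚ K : ℝ)))) / 2) : ℝ) : ℂ) * I) =
          ph t₀ (Real.log (Nm (b c))) * cexp (((Module.finrank ℚ K * t₀ * (Real.log ρ / 2) : ℝ) : ℂ) * I) := by
        unfold ph
        rw [← Complex.exp_add, ← add_mul, ← Complex.ofReal_neg, ← Complex.ofReal_add]
        congr 3
        rw [hT, Real.log_mul hρ.ne' (Real.rpow_pos_of_pos (hbpos c) _).ne', Real.log_rpow (hbpos c)]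
        field_simp
        ring
      rw [h2]
      ring
    rw [Finset.sum_congr rfl fun c _ => hfac c, ← Finset.sum_mul, hB, zero_mul]
  · rw [← hE] at h0
    rw [h0]
    simp

end Pool.Agent.UN
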